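import Pool.Agent.R756.TN.Net

/-!
Read-once tree tensor networks: decomposition of all the coordinates into clusters.
-/

set_option autoImplicit false

namespace Pool.Agent.R756.CT

open Finset Pool.Agent.R756.TN

variable {K ι α W : Type} [Field K] [DecidableEq ι]

/-- `F` is a sum of at most `d` products of a scalar function of the coordinates in `A` and a vector
valued function of the coordinates in `C` -/
def RV (d : ℕ) (A C : Finset ι) (F : (ι → α) → W → K) : Prop :=
  ∃ (κ : Type) (_ : Fintype κ) (a : κ → (ι → α) → K) (b : κ → (ι → α) → W → K),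
    Fintype.card κ ≤ d ∧ (∀ k, Local A (a k)) ∧ (∀ k, Local C (b k)) ∧
      ∀ x, F x = ∑ k, a k x • b k x

omit [DecidableEq ι] in
lemma Local.mono' {Y : Type} {B C : Finset ι} {f : (ι → α) → Y} (h : Local B f) (hBC : B ⊆ C) :
    Local C f := fun x y hxy => h x y fun i hi => hxy i (hBC hi)

omit [DecidableEq ι] in
lemma RV.mono {d d' : ℕ} {A A' C C' : Finset ι} {F : (ι → α) → W → K} (h : RV d A C F)
    (hd : d ≤ d') (hA : A ⊆ A') (hC : C ⊆ C') : RV d' A' C' F := by
  obtain ⟨κ, i, a, b, h1, h2, h3, h4⟩ := h
  exact ⟨κ, i, a, b, h1.trans hd, fun k => Local.mono' (h2 k) hA, fun k => Local.mono' (h3 k) hC, h4⟩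

lemma vec_eq [Fintype W] [DecidableEq W] (v : W → K) : v = ∑ w, v w • (Pi.single w 1 : W → K) := by
  funext u
  simp [Finset.sum_apply, Pi.single_apply]

omit [DecidableEq ι] in
lemma RV.swap [Fintype W] {d : ℕ} {A C : Finset ι} {F : (ι → α) → W → K} (h : RV d A C F) :
    RV (d * Fintype.card W) C A F := by
  classical
  obtain ⟨κ, i, a, b, h1, h2, h3, h4⟩ := h
  refine ⟨κ × W, inferInstance, fun k x => b k.1 x k.2, fun k x => a k.1 x • Pi.single k.2 1,
    ?_, ?_, ?_, ?_⟩
  · rw [Fintype.card_prod]
    exact Nat.mul_le_mul_right _ h1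
  · intro k x y hxy
    simp only
    rw [h3 k.1 x y hxy]
  · intro k x y hxy
    simp only
    rw [h2 k.1 x y hxy]
  · intro x
    rw [h4 x, Fintype.sum_prod_type]
    refine sum_congr rfl fun k _ => ?_
    conv_lhs => rw [vec_eq (b k x), Finset.smul_sum]
    refine sum_congr rfl fun w _ => ?_
    rw [smul_smul, smul_smul, mul_comm]

lemma RV.node {d d' : ℕ} {A A' C C' : Finset ι} {F F' : (ι → α) → W → K}
    (g : (W → K) →ₗ[K] (W → K) →ₗ[K] (W → K)) (h : RV d A C F) (h' : RV d' A' C' F') :
    RV (d * d') (A ∪ A') (C ∪ C') (fun x => g (F x) (F' x)) := by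
  obtain ⟨κ, i, a, b, h1, h2, h3, h4⟩ := h
  obtain ⟨κ', i', a', b', h1', h2', h3', h4'⟩ := h'
  refine ⟨κ × κ', inferInstance, fun k x => a k.1 x * a' k.2 x, fun k x => g (b k.1 x) (b' k.2 x),
    ?_, ?_, ?_, ?_⟩
  · rw [Fintype.card_prod]
    exact Nat.mul_le_mul h1 h1'
  · intro k x y hxy
    simp only
    rw [h2 k.1 x y fun i hi => hxy i (mem_union_left _ hi),
      h2' k.2 x y fun i hi => hxy i (mem_union_right _ hi)]
  · intro k x y hxy
    simp only
    rw [h3 k.1 x y fun i hi => hxy i (mem_union_left _ hi),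
      h3' k.2 x y fun i hi => hxy i (mem_union_right _ hi)]
  · intro x
    simp only
    have e : g (∑ k, a k x • b k x) = ∑ k, a k x • g (b k x) := by
      rw [map_sum]
      exact sum_congr rfl fun k _ => map_smul _ _ _
    rw [h4 x, h4' x, e, LinearMap.sum_apply, Fintype.sum_prod_type]
    refine sum_congr rfl fun k _ => ?_
    rw [LinearMap.smul_apply, map_sum, Finset.smul_sum]
    refine sum_congr rfl fun k' _ => ?_
    rw [map_smul, smul_smul]

omit [DecidableEq ι] in
lemma RV.triv {C : Finset ι} {F : (ι → α) → W → K} (h : Local C F) : RV 1 ∅ C F :=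
  ⟨Unit, inferInstance, fun _ _ => 1, fun _ => F, by simp, fun _ _ _ _ => rfl, fun _ => h,
    fun x => by simp⟩

omit [DecidableEq ι] in
lemma RV.full [Fintype W] {A : Finset ι} {F : (ι → α) → W → K} (h : Local A F) :
    RV (Fintype.card W) A ∅ F := by
  have := (RV.triv h).swap
  rwa [one_mul] at this

/-- closed clusters `L` with the numbers of clusters below them, the open cluster `O` at the root -/
structure Cl [Fintype W] (m M : ℕ) (D : Net K ι α W) (L : List (Finset ι × ℕ)) (O : Finset ι)
    (b : ℕ) : Prop where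
  sub : ∀ p ∈ L, p.1 ⊆ D.vars
  disj : ∀ p ∈ L, Disjoint p.1 O
  pw : L.Pairwise fun p q => Disjoint p.1 q.1
  osub : O ⊆ D.vars
  ocard : O.card < M
  big : ∀ p ∈ L, m ≤ p.1.card
  small : ∀ p ∈ L, p.1.card < 2 * m
  cover : ∀ i ∈ D.vars, i ∈ O ∨ ∃ p ∈ L, i ∈ p.1
  deg : (L.map Prod.snd).sum + b = L.length
  rk1 : ∀ p ∈ L, RV (Fintype.card W ^ (p.2 + 1)) p.1 (D.vars \ p.1) D.eval
  rk2 : RV (Fintype.card W ^ b) (D.vars \ O) O D.eval
  rk3 : ∀ P : Finset ι, (∀ p ∈ L, p.1 ⊆ P ∨ Disjoint p.1 P) → Disjoint O P →
    RV (Fintype.card W ^ L.length) (D.vars ∩ P) (D.vars \ P) D.eval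

lemma Cl.close [Fintype W] [Nonempty W] {m : ℕ} {D : Net K ι α W} {L : List (Finset ι × ℕ)}
    {O : Finset ι} {b : ℕ} (h : Cl m (2 * m) D L O b) (hm : 0 < m) :
    ∃ L' O' b', Cl m m D L' O' b' := by
  have hW : 0 < Fintype.card W := Fintype.card_pos
  rcases lt_or_ge O.card m with h1 | h1
  · exact ⟨L, O, b, h.sub, h.disj, h.pw, h.osub, h1, h.big, h.small, h.cover, h.deg, h.rk1, h.rk2,
      h.rk3⟩
  refine ⟨(O, b) :: L, ∅, 1, ?_, by simp, ?_, by simp, by simpa using hm, ?_, ?_, ?_, ?_, ?_, ?_,
    ?_⟩
  · intro p hp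
    rcases List.mem_cons.1 hp with rfl | hp
    · exact h.osub
    · exact h.sub p hp
  · rw [List.pairwise_cons]
    exact ⟨fun q hq => (h.disj q hq).symm, h.pw⟩
  · intro p hp
    rcases List.mem_cons.1 hp with rfl | hp
    · exact h1
    · exact h.big p hp
  · intro p hp
    rcases List.mem_cons.1 hp with rfl | hp
    · exact h.ocard
    · exact h.small p hp
  · intro i hi
    right
    rcases h.cover i hi with h2 | ⟨p, hp, h2⟩
    · exact ⟨(O, b), List.mem_cons_self, h2⟩
    · exact ⟨p, List.mem_cons_of_mem _ hp, h2⟩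
  · have := h.deg
    simp only [List.map_cons, List.sum_cons, List.length_cons]
    omega
  · intro p hp
    rcases List.mem_cons.1 hp with rfl | hp
    · have := h.rk2.swap
      rwa [← pow_succ] at this
    · exact h.rk1 p hp
  · rw [pow_one, sdiff_empty]
    exact RV.full (eval_local D)
  · intro P hP _
    have hPL : ∀ p ∈ L, p.1 ⊆ P ∨ Disjoint p.1 P := fun p hp => hP p (List.mem_cons_of_mem _ hp)
    rcases hP (O, b) List.mem_cons_self with h2 | h2
    · have h3 := h.rk3 (D.vars \ P) (fun p hp => by
        rcases hPL p hp with h4 | h4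
        · right
          exact disjoint_sdiff.mono_left h4
        · left
          rw [subset_sdiff]
          exact ⟨h.sub p hp, h4⟩) (disjoint_sdiff.mono_left h2)
      have h4 := h3.swap
      rw [← pow_succ] at h4
      refine h4.mono le_rfl ?_ ?_
      · intro i hi
        rw [mem_sdiff, mem_sdiff] at hi
        rw [mem_inter]
        refine ⟨hi.1, ?_⟩
        by_contra hno
        exact hi.2 ⟨hi.1, hno⟩
      · exact inter_subset_right
    · refine (h.rk3 P hPL h2).mono ?_ (Subset.refl _) (Subset.refl _)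
      rw [List.length_cons]
      exact Nat.pow_le_pow_right hW (Nat.le_succ _)

theorem clusters [Fintype W] [Nonempty W] {m : ℕ} (hm : 2 ≤ m) (D : Net K ι α W)
    (hD : D.ReadOnce) : ∃ L O b, Cl m m D L O b := by
  induction D with
  | leaf i f =>
    refine ⟨[], {i}, 0, by simp, by simp, List.Pairwise.nil, ?_, ?_, by simp, by simp, ?_, by simp,
      by simp, ?_, ?_⟩
    · simp [Net.vars]
    · simp only [Finset.card_singleton]
      omega
    · intro j hj
      left
      simpa [Net.vars] using hj
    · rw [pow_zero]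
      refine (RV.triv (eval_local (Net.leaf i f))).mono le_rfl (empty_subset _) ?_
      simp [Net.vars]
    · intro P _ hP
      rw [List.length_nil, pow_zero]
      refine (RV.triv (eval_local (Net.leaf i f))).mono le_rfl (empty_subset _) ?_
      simp only [Net.vars]
      rw [subset_sdiff]
      exact ⟨Subset.refl _, hP⟩
  | node g l r ihl ihr =>
    obtain ⟨hdis, hl, hr⟩ := hD
    obtain ⟨L1, O1, b1, h1⟩ := ihl hl
    obtain ⟨L2, O2, b2, h2⟩ := ihr hr
    have hO1r : Disjoint O1 r.vars := hdis.mono_left h1.osub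
    have hO2l : Disjoint l.vars O2 := hdis.mono_right h2.osub
    have hO12 : Disjoint O1 O2 := hO1r.mono_right h2.osub
    have hev : (Net.node g l r).eval = fun x => g (l.eval x) (r.eval x) := rfl
    refine Cl.close (L := L1 ++ L2) (O := O1 ∪ O2) (b := b1 + b2) ?_ (by omega)
    refine ⟨?_, ?_, ?_, ?_, ?_, ?_, ?_, ?_, ?_, ?_, ?_, ?_⟩
    · intro p hp
      rcases List.mem_append.1 hp with hp | hp
      · exact (h1.sub p hp).trans Finset.subset_union_left
      · exact (h2.sub p hp).trans Finset.subset_union_right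
    · intro p hp
      rw [Finset.disjoint_union_right]
      rcases List.mem_append.1 hp with hp | hp
      · exact ⟨h1.disj p hp, hO2l.mono_left (h1.sub p hp)⟩
      · exact ⟨(hO1r.mono_right (h2.sub p hp)).symm, h2.disj p hp⟩
    · rw [List.pairwise_append]
      refine ⟨h1.pw, h2.pw, fun p hp q hq => ?_⟩
      exact (hdis.mono_left (h1.sub p hp)).mono_right (h2.sub q hq)
    · exact Finset.union_subset_union h1.osub h2.osub
    · refine lt_of_le_of_lt (Finset.card_union_le _ _) ?_
      have := h1.ocard
      have := h2.ocard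
      omega
    · intro p hp
      rcases List.mem_append.1 hp with hp | hp
      · exact h1.big p hp
      · exact h2.big p hp
    · intro p hp
      rcases List.mem_append.1 hp with hp | hp
      · exact h1.small p hp
      · exact h2.small p hp
    · intro i hi
      rcases mem_union.1 hi with hi | hi
      · rcases h1.cover i hi with h3 | ⟨p, hp, h3⟩
        · exact Or.inl (mem_union_left _ h3)
        · exact Or.inr ⟨p, List.mem_append_left _ hp, h3⟩
      · rcases h2.cover i hi with h3 | ⟨p, hp, h3⟩
        · exact Or.inl (mem_union_right _ h3)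
        · exact Or.inr ⟨p, List.mem_append_right _ hp, h3⟩
    · have c1 := h1.deg
      have c2 := h2.deg
      rw [List.map_append, List.sum_append, List.length_append]
      omega
    · intro p hp
      rcases List.mem_append.1 hp with hp | hp
      · have h3 := (h1.rk1 p hp).node g (RV.triv (eval_local r))
        rw [hev]
        refine h3.mono (by simp) (by simp) ?_
        intro i hi
        rcases mem_union.1 hi with hi | hi
        · rw [mem_sdiff] at hi ⊢
          exact ⟨mem_union_left _ hi.1, hi.2⟩
        · rw [mem_sdiff]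
          exact ⟨mem_union_right _ hi, fun h => disjoint_left.1 hdis (h1.sub p hp h) hi⟩
      · have h3 := (RV.triv (eval_local l)).node g (h2.rk1 p hp)
        rw [hev]
        refine h3.mono (by simp) (by simp) ?_
        intro i hi
        rcases mem_union.1 hi with hi | hi
        · rw [mem_sdiff]
          exact ⟨mem_union_left _ hi, fun h => disjoint_left.1 hdis hi (h2.sub p hp h)⟩
        · rw [mem_sdiff] at hi ⊢
          exact ⟨mem_union_right _ hi.1, hi.2⟩
    · have h3 := h1.rk2.node g h2.rk2
      rw [hev]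
      refine h3.mono (by rw [← pow_add]) ?_ (Subset.refl _)
      intro i hi
      rw [mem_sdiff, mem_union]
      rcases mem_union.1 hi with hi | hi
      · rw [mem_sdiff] at hi
        refine ⟨mem_union_left _ hi.1, ?_⟩
        rintro (h | h)
        · exact hi.2 h
        · exact disjoint_left.1 hO2l hi.1 h
      · rw [mem_sdiff] at hi
        refine ⟨mem_union_right _ hi.1, ?_⟩
        rintro (h | h)
        · exact disjoint_left.1 hO1r h hi.1
        · exact hi.2 h
    · intro P hP hO
      rw [disjoint_union_left] at hO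
      have h3 := (h1.rk3 P (fun p hp => hP p (List.mem_append_left _ hp)) hO.1).node g
        (h2.rk3 P (fun p hp => hP p (List.mem_append_right _ hp)) hO.2)
      rw [hev]
      refine h3.mono (by rw [← pow_add, List.length_append]) ?_ ?_
      · rw [← union_inter_distrib_right]
        exact Subset.refl _
      · rw [← union_sdiff_distrib]
        exact Subset.refl _

end Pool.Agent.R756.CT
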