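import Pool.Agent.R756.TN.Main

/-!
Corner-free supports: cuts and blocks.
-/

set_option autoImplicit false

namespace Pool.Agent.R756.CT

open Finset hiding dens
open Pool.Agent.Helper868.DHJ Pool.Agent.R756.TN

/-- diagonal matrices of small rank -/
lemma diag_card {K κ X : Type} [Field K] [Fintype κ] (S : Finset X) (u v : κ → X → K)
    (hd : ∀ c ∈ S, ∑ k, u k c * v k c ≠ 0)
    (ho : ∀ c ∈ S, ∀ c' ∈ S, c ≠ c' → ∑ k, u k c * v k c' = 0) : S.card ≤ Fintype.card κ := by
  classical
  have hli : LinearIndependent K (fun c : S => fun k => v k c) := by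
    rw [Fintype.linearIndependent_iff]
    intro g hg c₀
    have h1 : ∑ c : S, g c * ∑ k, u k c₀ * v k c = 0 := by
      have h2 : ∀ k, ∑ c : S, g c * v k c = 0 := by
        intro k
        have := congrFun hg k
        simpa [Finset.sum_apply] using this
      calc ∑ c : S, g c * ∑ k, u k c₀ * v k c
          = ∑ k, u k c₀ * ∑ c : S, g c * v k c := by
            simp only [Finset.mul_sum]
            rw [Finset.sum_comm]
            exact sum_congr rfl fun k _ => sum_congr rfl fun c _ => by ring
        _ = 0 := sum_eq_zero fun k _ => by rw [h2 k, mul_zero]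
    rw [Finset.sum_eq_single c₀ (fun c _ hc => by
      rw [ho c₀ c₀.2 c c.2 (fun h => hc (Subtype.ext h.symm)), mul_zero]) (by simp)] at h1
    exact (mul_eq_zero.1 h1).resolve_right (hd c₀ c₀.2)
  have := hli.fintype_card_le_finrank
  simpa using this

variable {J G : Type} [AddCommGroup G]

/-- `(x + z, y)` -/
def addx (c : J ⊕ J → G) (z : J → G) : J ⊕ J → G :=
  Sum.elim (fun i => c (Sum.inl i) + z i) (fun i => c (Sum.inr i))

/-- `(x, y + z)` -/
def addy (c : J ⊕ J → G) (z : J → G) : J ⊕ J → G :=
  Sum.elim (fun i => c (Sum.inl i)) (fun i => c (Sum.inr i) + z i)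

/-- there is no corner `(x, y), (x, y + z), (x + z, y)` with `z ≠ 0` -/
def CF (A : Set (J ⊕ J → G)) : Prop :=
  ∀ (c : J ⊕ J → G) (z : J → G), z ≠ 0 → c ∈ A → addy c z ∈ A → addx c z ∉ A

variable [Fintype J] [DecidableEq J] [Fintype G] [DecidableEq G]

open Classical in
/-- **Cuts.** -/
theorem cut_bound {K : Type} [Field K] {R : ℕ} (f : (J ⊕ J → G) → K)
    (hf : CF {c | f c ≠ 0}) (P : Finset (J ⊕ J)) (hP : Rk R P f) (T : Finset J)
    (hT : (∀ i ∈ T, Sum.inl i ∈ P ∧ Sum.inr i ∉ P) ∨ (∀ i ∈ T, Sum.inl i ∉ P ∧ Sum.inr i ∈ P)) :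
    (univ.filter fun c => f c ≠ 0).card * Fintype.card G ^ T.card ≤
      R * Fintype.card G ^ (2 * Fintype.card J) := by
  obtain ⟨κ, _, a, b, hκ, ha, hb, hab⟩ := hP
  let Φ : (J ⊕ J → G) → (J ⊕ J → G) := fun c =>
    Sum.elim (fun i => if i ∈ T then 0 else c (Sum.inl i))
      (fun i => if i ∈ T then c (Sum.inl i) + c (Sum.inr i) else c (Sum.inr i))
  have hΦ : ∀ c c', Φ c = Φ c' → (∀ i, i ∉ T → c (Sum.inl i) = c' (Sum.inl i)) ∧
      (∀ i, i ∉ T → c (Sum.inr i) = c' (Sum.inr i)) ∧
      (∀ i ∈ T, c (Sum.inl i) + c (Sum.inr i) = c' (Sum.inl i) + c' (Sum.inr i)) := by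
    intro c c' h
    refine ⟨fun i hi => ?_, fun i hi => ?_, fun i hi => ?_⟩
    · have := congrFun h (Sum.inl i)
      simpa [Φ, hi] using this
    · have := congrFun h (Sum.inr i)
      simpa [Φ, hi] using this
    · have := congrFun h (Sum.inr i)
      simpa [Φ, hi] using this
  set A : Finset (J ⊕ J → G) := univ.filter fun c => f c ≠ 0 with hA
  -- fibres
  have h1 : A.card ≤ R * (A.image Φ).card := by
    refine card_le_mul_card_image A R fun w _ => ?_
    refine le_trans ?_ hκ
    set S : Finset (J ⊕ J → G) := A.filter fun c => Φ c = w with hS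
    have hmem : ∀ c, c ∈ S → f c ≠ 0 ∧ Φ c = w := by
      intro c hc
      rw [hS, mem_filter, hA, mem_filter] at hc
      exact ⟨hc.1.2, hc.2⟩
    let mix : (J ⊕ J → G) → (J ⊕ J → G) → (J ⊕ J → G) := fun c c' =>
      Sum.elim (fun i => c (Sum.inl i)) (fun i => c' (Sum.inr i))
    have hmix : ∀ c, mix c c = c := by
      intro c
      funext s
      rcases s with i | i <;> rfl
    have hoff : ∀ c ∈ S, ∀ c' ∈ S, c ≠ c' → f (mix c c') = 0 := by
      intro c hc c' hc' hne
      by_contra hcon
      obtain ⟨e1, e2⟩ := hmem c hc
      obtain ⟨e3, e4⟩ := hmem c' hc'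
      obtain ⟨g1, g2, g3⟩ := hΦ c c' (e2.trans e4.symm)
      refine hf (mix c c') (fun i => c' (Sum.inl i) - c (Sum.inl i)) ?_ hcon ?_ ?_
      · intro hz
        apply hne
        have hx : ∀ i, c (Sum.inl i) = c' (Sum.inl i) := by
          intro i
          have := congrFun hz i
          simp only [Pi.zero_apply, sub_eq_zero] at this
          exact this.symm
        funext s
        rcases s with i | i
        · exact hx i
        · by_cases hi : i ∈ T
          · have := g3 i hi
            rw [hx i] at this
            exact add_left_cancel this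
          · exact g2 i hi
      · have : addy (mix c c') (fun i => c' (Sum.inl i) - c (Sum.inl i)) = c := by
          funext s
          rcases s with i | i
          · rfl
          · simp only [addy, mix, Sum.elim_inr]
            by_cases hi : i ∈ T
            · have := g3 i hi
              rw [← add_sub_assoc, sub_eq_iff_eq_add, add_comm (c' (Sum.inr i)), ← this, add_comm]
            · rw [← g1 i hi, sub_self, add_zero, g2 i hi]
        rw [this]
        exact e1
      · have : addx (mix c c') (fun i => c' (Sum.inl i) - c (Sum.inl i)) = c' := by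
          funext s
          rcases s with i | i
          · simp [addx, mix]
          · rfl
        rw [this]
        exact e3
    rcases hT with hT | hT
    · have ha' : ∀ k, ∀ c ∈ S, ∀ c' ∈ S, a k (mix c c') = a k c := by
        intro k c hc c' hc'
        obtain ⟨g1, g2, -⟩ := hΦ c c' ((hmem c hc).2.trans (hmem c' hc').2.symm)
        refine ha k _ _ fun s hs => ?_
        rcases s with i | i
        · rfl
        · have hi : i ∉ T := fun h => (hT i h).2 hs
          exact (g2 i hi).symm
      have hb' : ∀ k, ∀ c ∈ S, ∀ c' ∈ S, b k (mix c c') = b k c' := by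
        intro k c hc c' hc'
        obtain ⟨g1, g2, -⟩ := hΦ c c' ((hmem c hc).2.trans (hmem c' hc').2.symm)
        refine hb k _ _ fun s hs => ?_
        rcases s with i | i
        · have hi : i ∉ T := fun h => hs (hT i h).1
          exact g1 i hi
        · rfl
      refine diag_card S a b ?_ ?_
      · intro c hc
        rw [← hab]
        exact (hmem c hc).1
      · intro c hc c' hc' hne
        have := hoff c hc c' hc' hne
        rw [hab] at this
        rw [← this]
        exact sum_congr rfl fun k _ => by rw [ha' k c hc c' hc', hb' k c hc c' hc']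
    · have ha' : ∀ k, ∀ c ∈ S, ∀ c' ∈ S, a k (mix c c') = a k c' := by
        intro k c hc c' hc'
        obtain ⟨g1, g2, -⟩ := hΦ c c' ((hmem c hc).2.trans (hmem c' hc').2.symm)
        refine ha k _ _ fun s hs => ?_
        rcases s with i | i
        · have hi : i ∉ T := fun h => (hT i h).1 hs
          exact g1 i hi
        · rfl
      have hb' : ∀ k, ∀ c ∈ S, ∀ c' ∈ S, b k (mix c c') = b k c := by
        intro k c hc c' hc'
        obtain ⟨g1, g2, -⟩ := hΦ c c' ((hmem c hc).2.trans (hmem c' hc').2.symm)
        refine hb k _ _ fun s hs => ?_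
        rcases s with i | i
        · rfl
        · have hi : i ∉ T := fun h => hs (hT i h).2
          exact (g2 i hi).symm
      refine diag_card S b a ?_ ?_
      · intro c hc
        have := (hmem c hc).1
        rw [hab] at this
        intro h
        apply this
        rw [← h]
        exact sum_congr rfl fun k _ => mul_comm _ _
      · intro c hc c' hc' hne
        have := hoff c hc c' hc' hne
        rw [hab] at this
        rw [← this]
        exact sum_congr rfl fun k _ => by rw [ha' k c hc c' hc', hb' k c hc c' hc', mul_comm]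
  -- the number of fibres
  have h2 : (A.image Φ).card * Fintype.card G ^ T.card ≤ Fintype.card G ^ (2 * Fintype.card J) := by
    have e1 : (A.image Φ ×ˢ (univ : Finset (T → G))).card =
        (A.image Φ).card * Fintype.card G ^ T.card := by
      rw [card_product, card_univ, Fintype.card_fun, Fintype.card_coe]
    have e2 : Fintype.card (J ⊕ J → G) = Fintype.card G ^ (2 * Fintype.card J) := by
      rw [Fintype.card_fun, Fintype.card_sum, two_mul]
    rw [← e1, ← e2, ← card_univ]
    refine card_le_card_of_injOn (fun p => fun s => match s with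
      | Sum.inl i => if h : i ∈ T then p.2 ⟨i, h⟩ else p.1 (Sum.inl i)
      | Sum.inr i => p.1 (Sum.inr i)) (fun _ _ => mem_coe.2 (mem_univ _)) ?_
    rintro ⟨c, t⟩ hc ⟨c', t'⟩ hc' h
    rw [mem_coe, mem_product] at hc hc'
    obtain ⟨y, -, hy⟩ := mem_image.1 hc.1
    obtain ⟨y', -, hy'⟩ := mem_image.1 hc'.1
    have hz : ∀ i ∈ T, c (Sum.inl i) = 0 := by
      intro i hi
      rw [← show Φ y = c from hy]
      simp [Φ, hi]
    have hz' : ∀ i ∈ T, c' (Sum.inl i) = 0 := by
      intro i hi
      rw [← show Φ y' = c' from hy']
      simp [Φ, hi]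
    rw [Prod.mk.injEq]
    constructor
    · funext s
      rcases s with i | i
      · by_cases hi : i ∈ T
        · rw [hz i hi, hz' i hi]
        · have := congrFun h (Sum.inl i)
          simpa [hi] using this
      · exact congrFun h (Sum.inr i)
    · funext i
      have := congrFun h (Sum.inl i.1)
      simpa using this
  calc A.card * Fintype.card G ^ T.card
      ≤ R * (A.image Φ).card * Fintype.card G ^ T.card := Nat.mul_le_mul_right _ h1
    _ = R * ((A.image Φ).card * Fintype.card G ^ T.card) := by ring
    _ ≤ R * Fintype.card G ^ (2 * Fintype.card J) := Nat.mul_le_mul_left _ h2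

/-- the indices with both coordinates in `B` -/
def pairs (B : Finset (J ⊕ J)) : Finset J := univ.filter fun i => Sum.inl i ∈ B ∧ Sum.inr i ∈ B

open Classical in
lemma card_eq_dens {ι α : Type} [Fintype ι] [Fintype α] [Nonempty α] [DecidableEq ι]
    (S : Set (ι → α)) :
    ((univ.filter fun c => c ∈ S).card : ℝ) = dens S * Fintype.card (ι → α) := by
  unfold dens
  rw [av_eq_sum]
  have h1 : ∑ x, ind S x = (univ.filter fun c => c ∈ S).card := by
    rw [card_filter]
    push_cast
    refine sum_congr rfl fun x _ => ?_
    by_cases hx : x ∈ S <;> simp [ind, hx]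
  have hp : (0 : ℝ) < Fintype.card (ι → α) := by exact_mod_cast Fintype.card_pos
  rw [h1]
  field_simp

/-- exchange the coordinates with index in `U` -/
def mx (U : Finset J) (c c' : J ⊕ J → G) : J ⊕ J → G :=
  Sum.elim (fun i => if i ∈ U then c' (Sum.inl i) else c (Sum.inl i))
    (fun i => if i ∈ U then c' (Sum.inr i) else c (Sum.inr i))

omit [AddCommGroup G] [Fintype J] [Fintype G] [DecidableEq G] in
lemma mx_mx (U : Finset J) (c c' : J ⊕ J → G) : mx U (mx U c c') (mx U c' c) = c := by
  funext s
  rcases s with i | i <;> by_cases h : i ∈ U <;> simp [mx, h]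

open Classical in
omit [AddCommGroup G] in
lemma sum_mx (U : Finset J) (A : Set (J ⊕ J → G)) :
    ∑ c₀ : J ⊕ J → G, (univ.filter fun c => mx U c₀ c ∈ A).card =
      Fintype.card (J ⊕ J → G) * (univ.filter fun c => c ∈ A).card := by
  let e : (J ⊕ J → G) × (J ⊕ J → G) ≃ (J ⊕ J → G) × (J ⊕ J → G) :=
    { toFun := fun p => (mx U p.1 p.2, mx U p.2 p.1)
      invFun := fun p => (mx U p.1 p.2, mx U p.2 p.1)
      left_inv := fun p => by simp [mx_mx]
      right_inv := fun p => by simp [mx_mx] }
  calc ∑ c₀ : J ⊕ J → G, (univ.filter fun c => mx U c₀ c ∈ A).card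
      = ∑ p : (J ⊕ J → G) × (J ⊕ J → G), if mx U p.1 p.2 ∈ A then 1 else 0 := by
        rw [Fintype.sum_prod_type]
        exact sum_congr rfl fun c _ => card_filter _ _
    _ = ∑ p : (J ⊕ J → G) × (J ⊕ J → G), if (e p).1 ∈ A then 1 else 0 := rfl
    _ = ∑ p : (J ⊕ J → G) × (J ⊕ J → G), if p.1 ∈ A then 1 else 0 :=
        e.sum_comp (fun p => if p.1 ∈ A then 1 else 0)
    _ = _ := by
        rw [Fintype.sum_prod_type, sum_comm]
        simp only [← card_filter, sum_const, card_univ, smul_eq_mul]

/-- pairs of words as words of pairs -/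
def cat : (J → G × G) ≃ (J ⊕ J → G) where
  toFun v := Sum.elim (fun i => (v i).1) (fun i => (v i).2)
  invFun c := fun i => (c (Sum.inl i), c (Sum.inr i))
  left_inv v := by funext i; rfl
  right_inv c := by funext s; rcases s with i | i <;> rfl

open Classical in
lemma block_card (A : Set (J ⊕ J → G)) (U : Finset J) (s : ℕ)
    (hmain : ∀ c₀ : J ⊕ J → G, dens {v : J → G × G | mx U c₀ (cat v) ∈ A} ≤ (1 / 2) ^ s) :
    2 ^ s * (univ.filter fun c => c ∈ A).card ≤ Fintype.card G ^ (2 * Fintype.card J) := by
  have hX : Fintype.card (J ⊕ J → G) = Fintype.card G ^ (2 * Fintype.card J) := by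
    rw [Fintype.card_fun, Fintype.card_sum, two_mul]
  have hcard : ∀ c₀ : J ⊕ J → G, 2 ^ s *
      (univ.filter fun c => mx U c₀ c ∈ A).card ≤ Fintype.card (J ⊕ J → G) := by
    intro c₀
    have e1 : (univ.filter fun c => mx U c₀ c ∈ A).card =
        (univ.filter fun v : J → G × G => v ∈ {v : J → G × G | mx U c₀ (cat v) ∈ A}).card := by
      symm
      refine card_bij' (fun v _ => cat v) (fun c _ => cat.symm c) ?_ ?_ ?_ ?_
      · intro v hv
        simpa using hv
      · intro c hc
        simpa using hc
      · intro v _
        simp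
      · intro c _
        simp
    have e2 := card_eq_dens {v : J → G × G | mx U c₀ (cat v) ∈ A}
    have e3 : Fintype.card (J → G × G) = Fintype.card (J ⊕ J → G) := Fintype.card_congr cat
    have e4 := hmain c₀
    rw [e3] at e2
    have e5 : (2 : ℝ) ^ s * (univ.filter fun c => mx U c₀ c ∈ A).card ≤
        Fintype.card (J ⊕ J → G) := by
      rw [e1, e2]
      calc (2 : ℝ) ^ s * (dens {v : J → G × G | mx U c₀ (cat v) ∈ A} *
            Fintype.card (J ⊕ J → G))
          ≤ (2 : ℝ) ^ s * ((1 / 2) ^ s * Fintype.card (J ⊕ J → G)) := by gcongr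
        _ = Fintype.card (J ⊕ J → G) := by
            rw [← mul_assoc, ← mul_pow]
            norm_num
    exact_mod_cast e5
  have hsum : ∑ c₀ : J ⊕ J → G, 2 ^ s *
      (univ.filter fun c => mx U c₀ c ∈ A).card ≤
        ∑ _c₀ : J ⊕ J → G, Fintype.card (J ⊕ J → G) := sum_le_sum fun c₀ _ => hcard c₀
  rw [← mul_sum, sum_mx, sum_const, card_univ, smul_eq_mul, mul_left_comm] at hsum
  have hpos : 0 < Fintype.card (J ⊕ J → G) := Fintype.card_pos
  have := Nat.le_of_mul_le_mul_left hsum hpos
  rw [← hX]
  exact this

open Classical in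
/-- **Blocks.** -/
theorem block_bound (G : Type) [AddCommGroup G] [Fintype G] [DecidableEq G] [Nontrivial G] (d : ℕ) :
    ∃ m : ℕ, ∀ (K : Type) [Field K] (J : Type) [Fintype J] [DecidableEq J]
      (f : (J ⊕ J → G) → K) (L : List (Finset (J ⊕ J))), (∀ B ∈ L, m ≤ (pairs B).card) →
      L.Pairwise Disjoint → (∀ B ∈ L, Rk d B f) → CF {c | f c ≠ 0} →
      2 ^ L.length * (univ.filter fun c => f c ≠ 0).card ≤
        Fintype.card G ^ (2 * Fintype.card J) := by
  obtain ⟨N, hN⟩ := density_hales_jewett (G × G) (1 / (2 * (d + 1))) (by positivity)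
  refine ⟨N, ?_⟩
  intro K _ J _ _ f L hL hpw hrk hf
  set U : Finset J := univ.filter fun i => ∃ B ∈ L, i ∈ pairs B with hU
  have huniq : ∀ B ∈ L, ∀ B' ∈ L, ∀ s, s ∈ B → s ∈ B' → B = B' := by
    intro B hB B' hB' s h h'
    by_contra hne
    have := hpw.forall hB hB' hne
    exact disjoint_left.1 this h h'
  have hmain : ∀ c₀ : J ⊕ J → G, dens {v : J → G × G | f (mx U c₀ (cat v)) ≠ 0} ≤
      (1 / 2) ^ L.length := by
    intro c₀
    have h1 := rank_core (K := K) (ι := J) (α := G × G) (N := N) (d := d)
      (η := 1 / (2 * ((d : ℝ) + 1))) (by positivity) (by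
        rw [mul_one_div, div_le_div_iff₀ (by positivity) (by norm_num)]
        linarith) (fun κ _ _ hκ C hC => hN κ hκ C hC) (L.map pairs)
      (fun v => f (mx U c₀ (cat v))) U ?_ ?_ ?_ ?_ ?_
    · rwa [List.length_map] at h1
    · intro B hB
      obtain ⟨B', hB', rfl⟩ := List.mem_map.1 hB
      intro i hi
      rw [hU, mem_filter]
      exact ⟨mem_univ _, B', hB', hi⟩
    · intro B hB
      obtain ⟨B', hB', rfl⟩ := List.mem_map.1 hB
      exact hL B' hB'
    · rw [List.pairwise_map]
      refine hpw.imp fun {B B'} h => ?_
      rw [disjoint_left]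
      intro i hi hi'
      simp only [pairs, mem_filter, mem_univ, true_and] at hi hi'
      exact disjoint_left.1 h hi.1 hi'.1
    · intro B hB
      obtain ⟨B', hB', rfl⟩ := List.mem_map.1 hB
      obtain ⟨κ, hfin, a, b, g1, g2, g3, g4⟩ := hrk B' hB'
      have hin : ∀ i, (Sum.inl i ∈ B' ∨ Sum.inr i ∈ B') → i ∈ U → i ∈ pairs B' := by
        intro i hi hiU
        rw [hU, mem_filter] at hiU
        obtain ⟨-, B₂, hB₂, h3⟩ := hiU
        have h4 := h3
        simp only [pairs, mem_filter, mem_univ, true_and] at h4
        rcases hi with hi | hi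
        · rw [huniq B' hB' B₂ hB₂ _ hi h4.1]
          exact h3
        · rw [huniq B' hB' B₂ hB₂ _ hi h4.2]
          exact h3
      refine ⟨κ, hfin, fun k v => a k (mx U c₀ (cat v)), fun k v => b k (mx U c₀ (cat v)), g1, ?_,
        ?_, fun v => g4 _⟩
      · intro k v v' hv
        refine g2 k _ _ fun s hs => ?_
        rcases s with i | i
        · by_cases hi : i ∈ U
          · simp [mx, cat, hi, hv i (hin i (Or.inl hs) hi)]
          · simp [mx, hi]
        · by_cases hi : i ∈ U
          · simp [mx, cat, hi, hv i (hin i (Or.inr hs) hi)]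
          · simp [mx, hi]
      · intro k v v' hv
        refine g3 k _ _ fun s hs => ?_
        rcases s with i | i
        · by_cases hi : i ∈ U
          · have : i ∉ pairs B' := by
              intro h
              simp only [pairs, mem_filter, mem_univ, true_and] at h
              exact hs h.1
            simp [mx, cat, hi, hv i this]
          · simp [mx, hi]
        · by_cases hi : i ∈ U
          · have : i ∉ pairs B' := by
              intro h
              simp only [pairs, mem_filter, mem_univ, true_and] at h
              exact hs h.2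
            simp [mx, cat, hi, hv i this]
          · simp [mx, hi]
    · -- no lines
      intro u hu huU
      by_contra hcon
      push Not at hcon
      obtain ⟨i0, hi0⟩ := hu
      obtain ⟨g, hg⟩ := exists_ne (0 : G)
      let z : J → G := fun i => if u i = none then g else 0
      have hz : z ≠ 0 := by
        intro h
        have := congrFun h i0
        simp [z, hi0] at this
        exact hg this
      have key : ∀ (s t : G), mx U c₀ (cat (pt u (s, t))) =
          Sum.elim (fun i => if u i = none then s else mx U c₀ (cat (pt u (0, 0))) (Sum.inl i))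
            (fun i => if u i = none then t else mx U c₀ (cat (pt u (0, 0))) (Sum.inr i)) := by
        intro s t
        funext j
        rcases j with i | i
        · rcases hi : u i with _ | y
          · have := huU i hi
            simp [mx, cat, pt, hi, this]
          · simp [mx, cat, pt, hi]
        · rcases hi : u i with _ | y
          · have := huU i hi
            simp [mx, cat, pt, hi, this]
          · simp [mx, cat, pt, hi]
      refine hf (mx U c₀ (cat (pt u (0, 0)))) z hz ?_ ?_ ?_
      · have := hcon (0, 0)
        simpa using this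
      · have := hcon (0, g)
        have e : addy (mx U c₀ (cat (pt u (0, 0)))) z = mx U c₀ (cat (pt u (0, g))) := by
          rw [key 0 g]
          funext j
          rcases j with i | i
          · by_cases hi : u i = none
            · have := huU i hi
              simp [addy, hi, mx, cat, pt, this]
            · simp [addy, hi]
          · by_cases hi : u i = none
            · have := huU i hi
              simp [addy, hi, mx, cat, pt, this, z]
            · simp [addy, hi, z]
        rw [e]
        simpa using this
      · have := hcon (g, 0)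
        have e : addx (mx U c₀ (cat (pt u (0, 0)))) z = mx U c₀ (cat (pt u (g, 0))) := by
          rw [key g 0]
          funext j
          rcases j with i | i
          · by_cases hi : u i = none
            · have := huU i hi
              simp [addx, hi, mx, cat, pt, this, z]
            · simp [addx, hi, z]
          · by_cases hi : u i = none
            · have := huU i hi
              simp [addx, hi, mx, cat, pt, this]
            · simp [addx, hi]
        rw [e]
        simpa using this
  have := block_card {c | f c ≠ 0} U L.length hmain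
  convert this

end Pool.Agent.R756.CT
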