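import Pool.Agent.R756.CT.Cluster
import Pool.Agent.R756.CT.Corner

/-!
Corner-free supports of functions computed by read-once tree tensor networks.
-/

set_option autoImplicit false

namespace Pool.Agent.R756.CT

open Finset hiding dens
open Pool.Agent.Helper868.DHJ Pool.Agent.R756.TN

lemma card_flip {V : Type} [Fintype V] [DecidableEq V] {a b : V} (hab : a ≠ b) :
    2 * (univ.filter fun Z : V → Bool => Z a ≠ Z b).card = Fintype.card (V → Bool) := by
  have h1 : (univ.filter fun Z : V → Bool => Z a ≠ Z b).card =
      (univ.filter fun Z : V → Bool => ¬ Z a ≠ Z b).card := by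
    refine card_bij' (fun Z _ => Function.update Z a (!Z a)) (fun Z _ => Function.update Z a (!Z a))
      ?_ ?_ ?_ ?_
    · intro Z hZ
      simp only [mem_filter, mem_univ, true_and, Function.update_self,
        Function.update_of_ne hab.symm] at hZ ⊢
      cases h1 : Z a <;> cases h2 : Z b <;> simp_all
    · intro Z hZ
      simp only [mem_filter, mem_univ, true_and, Function.update_self,
        Function.update_of_ne hab.symm] at hZ ⊢
      cases h1 : Z a <;> cases h2 : Z b <;> simp_all
    · intro Z _
      funext v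
      by_cases hv : v = a
      · subst hv; simp
      · simp [Function.update_of_ne hv]
    · intro Z _
      funext v
      by_cases hv : v = a
      · subst hv; simp
      · simp [Function.update_of_ne hv]
  have h2 := card_filter_add_card_filter_not (s := (univ : Finset (V → Bool)))
    (fun Z : V → Bool => Z a ≠ Z b)
  rw [← h1, card_univ] at h2
  omega

lemma xor_cut (a b c : Bool) (h : a ≠ b) :
    (xor a c = true ∧ xor b c = false) ∨ (xor a c = false ∧ xor b c = true) := by
  cases a <;> cases b <;> cases c <;> simp_all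

/-- half of the edges are cut -/
lemma exists_cut {V I : Type} [Fintype V] [DecidableEq V] (X : Finset I) (p q : I → V)
    (h : ∀ i ∈ X, p i ≠ q i) :
    ∃ Z : V → Bool, X.card ≤ 2 * (X.filter fun i => Z (p i) ≠ Z (q i)).card := by
  by_contra hcon
  push Not at hcon
  have h1 : ∑ Z : V → Bool, 2 * (X.filter fun i => Z (p i) ≠ Z (q i)).card <
      ∑ _Z : V → Bool, X.card := by
    refine sum_lt_sum_of_nonempty ⟨fun _ => true, mem_univ _⟩ fun Z _ => hcon Z
  have h2 : ∑ Z : V → Bool, 2 * (X.filter fun i => Z (p i) ≠ Z (q i)).card =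
      ∑ _Z : V → Bool, X.card := by
    calc ∑ Z : V → Bool, 2 * (X.filter fun i => Z (p i) ≠ Z (q i)).card
        = ∑ Z : V → Bool, ∑ i ∈ X, 2 * (if Z (p i) ≠ Z (q i) then 1 else 0) := by
          refine sum_congr rfl fun Z _ => ?_
          rw [card_filter, mul_sum]
      _ = ∑ i ∈ X, 2 * (univ.filter fun Z : V → Bool => Z (p i) ≠ Z (q i)).card := by
          rw [sum_comm]
          refine sum_congr rfl fun i _ => ?_
          rw [← mul_sum, card_filter]
      _ = ∑ i ∈ X, Fintype.card (V → Bool) := sum_congr rfl fun i hi => card_flip (h i hi)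
      _ = ∑ _Z : V → Bool, X.card := by
          rw [sum_const, sum_const, card_univ, smul_eq_mul, smul_eq_mul, mul_comm]
  omega

lemma list_card {ι β : Type} [Fintype ι] [DecidableEq ι] (F : β → Finset ι) (L : List β)
    (hpw : L.Pairwise fun p q => Disjoint (F p) (F q)) :
    ∃ U : Finset ι, (∀ p ∈ L, F p ⊆ U) ∧ (∀ i ∈ U, ∃ p ∈ L, i ∈ F p) ∧
      U.card = (L.map fun p => (F p).card).sum := by
  induction L with
  | nil => exact ⟨∅, by simp, by simp, by simp⟩
  | cons p L ih =>
    rw [List.pairwise_cons] at hpw
    obtain ⟨U, h1, h2, h3⟩ := ih hpw.2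
    refine ⟨F p ∪ U, ?_, ?_, ?_⟩
    · intro q hq
      rcases List.mem_cons.1 hq with rfl | hq
      · exact subset_union_left
      · exact (h1 q hq).trans subset_union_right
    · intro i hi
      rcases mem_union.1 hi with hi | hi
      · exact ⟨p, List.mem_cons_self, hi⟩
      · obtain ⟨q, hq, h⟩ := h2 i hi
        exact ⟨q, List.mem_cons_of_mem _ hq, h⟩
    · rw [card_union_of_disjoint, h3, List.map_cons, List.sum_cons]
      rw [disjoint_left]
      intro i hi hiU
      obtain ⟨q, hq, h⟩ := h2 i hiU
      exact disjoint_left.1 (hpw.1 q hq) hi h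

lemma card_le_list {ι β : Type} [DecidableEq ι] (F : β → Finset ι) (L : List β) :
    ∀ (S O : Finset ι), (∀ i ∈ S, i ∈ O ∨ ∃ p ∈ L, i ∈ F p) →
      S.card ≤ O.card + (L.map fun p => (F p).card).sum := by
  induction L with
  | nil =>
    intro S O h
    simp only [List.map_nil, List.sum_nil, add_zero]
    refine card_le_card fun i hi => ?_
    rcases h i hi with h | ⟨p, hp, _⟩
    · exact h
    · simp at hp
  | cons p L ih =>
    intro S O h
    have h1 := ih (S \ F p) O (by
      intro i hi
      rw [mem_sdiff] at hi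
      rcases h i hi.1 with h' | ⟨q, hq, h'⟩
      · exact Or.inl h'
      · rcases List.mem_cons.1 hq with rfl | hq
        · exact absurd h' hi.2
        · exact Or.inr ⟨q, hq, h'⟩)
    have h2 : S.card ≤ (S \ F p).card + (F p).card := by
      have := card_le_card (show S ⊆ (S \ F p) ∪ F p by
        intro i hi
        rw [mem_union, mem_sdiff]
        by_cases hp : i ∈ F p
        · exact Or.inr hp
        · exact Or.inl ⟨hi, hp⟩)
      exact this.trans (card_union_le _ _)
    rw [List.map_cons, List.sum_cons]
    omega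

lemma list_sum_bound {β : Type} (x y : β → ℕ) (m c t : ℕ) (L : List β) (hm : ∀ p ∈ L, x p ≤ m) :
    (L.map x).sum ≤ m * (L.filter fun p => y p ≤ t ∧ c ≤ x p).length +
      m * (L.filter fun p => t < y p).length + c * L.length := by
  induction L with
  | nil => simp
  | cons p L ih =>
    have h1 := ih fun q hq => hm q (List.mem_cons_of_mem _ hq)
    have h2 := hm p List.mem_cons_self
    rw [List.map_cons, List.sum_cons, List.filter_cons, List.filter_cons, List.length_cons]
    by_cases e1 : t < y p
    · have e2 : ¬ (y p ≤ t ∧ c ≤ x p) := fun h => by omega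
      simp only [e1, e2, decide_true, decide_false, if_true, Bool.false_eq_true, if_false,
        List.length_cons, mul_add, mul_one]
      omega
    · by_cases e3 : c ≤ x p
      · have e2 : (y p ≤ t ∧ c ≤ x p) := ⟨by omega, e3⟩
        simp only [e1, e2, and_self, decide_true, decide_false, if_true, Bool.false_eq_true,
          if_false, List.length_cons, mul_add, mul_one]
        omega
      · have e2 : ¬ (y p ≤ t ∧ c ≤ x p) := fun h => e3 h.2
        simp only [e1, e2, decide_false, Bool.false_eq_true, if_false, mul_add, mul_one]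
        omega

lemma list_markov {β : Type} (y : β → ℕ) (t : ℕ) (L : List β) :
    (L.filter fun p => t < y p).length * (t + 1) ≤ (L.map y).sum := by
  induction L with
  | nil => simp
  | cons p L ih =>
    rw [List.map_cons, List.sum_cons, List.filter_cons]
    by_cases e : t < y p
    · simp only [e, decide_true, if_true, List.length_cons, add_mul, one_mul]
      have : t + 1 ≤ y p := e
      omega
    · simp only [e, decide_false, Bool.false_eq_true, if_false]
      omega

lemma RV.rk {K ι α W : Type} [Field K] {d : ℕ} {A C : Finset ι} {F : (ι → α) → W → K}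
    (h : RV d A C F) (P : Finset ι) (hA : A ⊆ P) (hC : ∀ i ∈ C, i ∉ P) (φ : (W → K) →ₗ[K] K) :
    Rk d P (fun x => φ (F x)) := by
  obtain ⟨κ, hfin, a, b, h1, h2, h3, h4⟩ := h
  refine ⟨κ, hfin, a, fun k x => φ (b k x), h1, ?_, ?_, ?_⟩
  · intro k x y hxy
    exact h2 k x y fun i hi => hxy i (hA hi)
  · intro k x y hxy
    simp only
    rw [h3 k x y fun i hi => hxy i (hC i hi)]
  · intro x
    simp only
    rw [h4 x, map_sum]
    exact Finset.sum_congr rfl fun k _ => by rw [map_smul, smul_eq_mul]

open Classical in
theorem tree_count (G : Type) [AddCommGroup G] [Fintype G] [DecidableEq G] [Nontrivial G]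
    (w : ℕ) (hw : 1 ≤ w) :
    ∃ M : ℕ, 1 ≤ M ∧ ∀ (K : Type) [Field K] (W : Type) [Fintype W], Fintype.card W ≤ w →
      ∀ (J : Type) [Fintype J] [DecidableEq J] (D : Net K (J ⊕ J) G W), D.ReadOnce →
      D.vars = univ → ∀ (φ : (W → K) →ₗ[K] K), CF {c | φ (D.eval c) ≠ 0} →
      ∃ s : ℕ, Fintype.card J ≤ M * (s + 1) ∧
        2 ^ s * (univ.filter fun c => φ (D.eval c) ≠ 0).card ≤
          Fintype.card G ^ (2 * Fintype.card J) := by
  obtain ⟨m0, hm0⟩ := block_bound G (w ^ 32)
  set m : ℕ := 16 * m0 + 32 * w + 2 with hm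
  refine ⟨8 * m, by omega, ?_⟩
  intro K _ W _ hW J _ _ D hD hvars φ hcf
  set n := Fintype.card J with hn
  set q := Fintype.card G with hq
  have hq2 : 2 ≤ q := Fintype.one_lt_card
  by_cases hWe : IsEmpty W
  · refine ⟨n, by nlinarith, ?_⟩
    have : (univ.filter fun c : J ⊕ J → G => φ (D.eval c) ≠ 0) = ∅ := by
      rw [filter_eq_empty_iff]
      intro c _
      have h0 : D.eval c = 0 := by
        funext u
        exact (hWe.false u).elim
      simp [h0]
    rw [this, card_empty, mul_zero]
    exact Nat.zero_le _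
  rw [not_isEmpty_iff] at hWe
  obtain ⟨L, O, b, h⟩ := clusters (m := m) (by omega) D hD
  set k := L.length with hk
  -- sizes
  have hkm : k * m ≤ 2 * n := by
    obtain ⟨U, -, -, h3⟩ := list_card (fun p : Finset (J ⊕ J) × ℕ => p.1) L h.pw
    have h4 : U.card ≤ 2 * n := by
      refine (card_le_univ _).trans ?_
      rw [Fintype.card_sum]
      omega
    have h5 : k * m ≤ (L.map fun p => p.1.card).sum := by
      have := List.card_nsmul_le_sum (L.map fun p => p.1.card) m (by
        intro x hx
        obtain ⟨p, hp, rfl⟩ := List.mem_map.1 hx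
        exact h.big p hp)
      rw [List.length_map, smul_eq_mul] at this
      exact this
    omega
  -- the index of the cluster
  have hdisj : ∀ i j : Fin k, i ≠ j → Disjoint (L.get i).1 (L.get j).1 := by
    intro i j hij
    have h1 := List.pairwise_iff_get.1 h.pw
    rcases lt_or_gt_of_ne hij with h2 | h2
    · exact h1 i j h2
    · exact (h1 j i h2).symm
  let idx : J ⊕ J → Fin (k + 1) := fun s =>
    if hs : ∃ j : Fin k, s ∈ (L.get j).1 then hs.choose.castSucc else Fin.last k
  have hidx1 : ∀ s (j : Fin k), s ∈ (L.get j).1 → idx s = j.castSucc := by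
    intro s j hj
    have hs : ∃ j : Fin k, s ∈ (L.get j).1 := ⟨j, hj⟩
    simp only [idx, dif_pos hs]
    congr 1
    by_contra hne
    exact disjoint_left.1 (hdisj _ _ hne) hs.choose_spec hj
  have hidx2 : ∀ s, s ∈ O → idx s = Fin.last k := by
    intro s hs
    have : ¬ ∃ j : Fin k, s ∈ (L.get j).1 := by
      rintro ⟨j, hj⟩
      exact disjoint_left.1 (h.disj _ (List.get_mem L j)) hj hs
    simp only [idx, dif_neg this]
  have hidx3 : ∀ s, (s ∈ O ∧ idx s = Fin.last k) ∨ ∃ j : Fin k, s ∈ (L.get j).1 ∧
      idx s = j.castSucc := by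
    intro s
    rcases h.cover s (by rw [hvars]; exact mem_univ _) with h1 | ⟨p, hp, h1⟩
    · exact Or.inl ⟨h1, hidx2 s h1⟩
    · obtain ⟨j, rfl⟩ := List.get_of_mem hp
      exact Or.inr ⟨j, h1, hidx1 s j h1⟩
  set X : Finset J := univ.filter fun i => idx (Sum.inl i) ≠ idx (Sum.inr i) with hX
  have hWw : ∀ t, Fintype.card W ^ t ≤ w ^ t := fun t => Nat.pow_le_pow_left hW t
  rcases le_or_gt n (2 * X.card) with hc | hc
  · -- many pairs are separated
    obtain ⟨Z, hZ⟩ := exists_cut X (fun i => idx (Sum.inl i)) (fun i => idx (Sum.inr i))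
      (fun i hi => (mem_filter.1 hi).2)
    let Z' : Fin (k + 1) → Bool := fun v => xor (Z v) (Z (Fin.last k))
    set P : Finset (J ⊕ J) := univ.filter fun s => Z' (idx s) = true with hP
    set T1 : Finset J := univ.filter fun i => Z' (idx (Sum.inl i)) = true ∧
      Z' (idx (Sum.inr i)) = false with hT1
    set T2 : Finset J := univ.filter fun i => Z' (idx (Sum.inl i)) = false ∧
      Z' (idx (Sum.inr i)) = true with hT2
    have hT12 : X.card ≤ 2 * (T1.card + T2.card) := by
      refine hZ.trans (Nat.mul_le_mul_left _ ?_)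
      refine le_trans (card_le_card fun i hi => ?_) (card_union_le _ _)
      have h1 := (mem_filter.1 hi).2
      rw [mem_union, hT1, hT2, mem_filter, mem_filter]
      rcases xor_cut _ _ (Z (Fin.last k)) h1 with h2 | h2
      · exact Or.inl ⟨mem_univ _, h2⟩
      · exact Or.inr ⟨mem_univ _, h2⟩
    obtain ⟨T, hTcard, hTP⟩ : ∃ T : Finset J, n ≤ 8 * T.card ∧
        ((∀ i ∈ T, Sum.inl i ∈ P ∧ Sum.inr i ∉ P) ∨ (∀ i ∈ T, Sum.inl i ∉ P ∧ Sum.inr i ∈ P)) := by
      rcases le_total T2.card T1.card with h1 | h1
      · refine ⟨T1, by omega, Or.inl fun i hi => ?_⟩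
        have h2 := (mem_filter.1 hi).2
        rw [hP, mem_filter, mem_filter]
        simp [h2.1, h2.2]
      · refine ⟨T2, by omega, Or.inr fun i hi => ?_⟩
        have h2 := (mem_filter.1 hi).2
        rw [hP, mem_filter, mem_filter]
        simp [h2.1, h2.2]
    have hrk3 := h.rk3 P (by
      intro p hp
      obtain ⟨j, rfl⟩ := List.get_of_mem hp
      rcases hz : Z' j.castSucc with _ | _
      · right
        rw [disjoint_left]
        intro s hs hsP
        rw [hP, mem_filter, hidx1 s j hs, hz] at hsP
        exact absurd hsP.2 (by simp)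
      · left
        intro s hs
        rw [hP, mem_filter, hidx1 s j hs]
        exact ⟨mem_univ _, hz⟩) (by
      rw [disjoint_left]
      intro s hs hsP
      rw [hP, mem_filter, hidx2 s hs] at hsP
      have := hsP.2
      simp [Z'] at this)
    have hrk : Rk (w ^ k) P (fun c => φ (D.eval c)) :=
      (hrk3.mono (hWw _) (Subset.refl _) (Subset.refl _)).rk P inter_subset_right
        (fun i hi => (mem_sdiff.1 hi).2) φ
    have hcut := cut_bound (fun c => φ (D.eval c)) hcf P hrk T hTP
    refine ⟨n / 16, ?_, ?_⟩
    · have h1 : n < 16 * (n / 16 + 1) := by omega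
      have h2 : 16 * (n / 16 + 1) ≤ 8 * m * (n / 16 + 1) := Nat.mul_le_mul_right _ (by omega)
      omega
    · have hwq : w ^ k ≤ q ^ (w * k) := by
        rw [pow_mul]
        refine Nat.pow_le_pow_left ?_ k
        exact (Nat.lt_pow_self (by omega)).le
      have h3 : 16 * (w * k) ≤ n := by
        have : k * (32 * w) ≤ k * m := Nat.mul_le_mul_left _ (by omega)
        have e : k * (32 * w) = 32 * (w * k) := by ring
        omega
      have h4 : n / 16 + w * k ≤ T.card := by omega
      set a := (univ.filter fun c => φ (D.eval c) ≠ 0).card with ha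
      have h5 : a * q ^ (n / 16) * q ^ (w * k) ≤ q ^ (2 * n) * q ^ (w * k) := by
        calc a * q ^ (n / 16) * q ^ (w * k) = a * q ^ (n / 16 + w * k) := by rw [pow_add]; ring
          _ ≤ a * q ^ T.card := Nat.mul_le_mul_left _ (Nat.pow_le_pow_right (by omega) h4)
          _ ≤ w ^ k * q ^ (2 * n) := by
              refine le_trans (le_of_eq ?_) hcut
              rw [ha, hq]
          _ ≤ q ^ (w * k) * q ^ (2 * n) := Nat.mul_le_mul_right _ hwq
          _ = q ^ (2 * n) * q ^ (w * k) := mul_comm _ _
      have h6 : a * q ^ (n / 16) ≤ q ^ (2 * n) :=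
        Nat.le_of_mul_le_mul_right h5 (Nat.pow_pos (by omega))
      refine le_trans ?_ h6
      rw [mul_comm]
      exact Nat.mul_le_mul_left _ (Nat.pow_le_pow_left hq2 _)
  · -- many pairs inside the clusters
    set Y : Finset J := univ.filter fun i => ¬ idx (Sum.inl i) ≠ idx (Sum.inr i) with hY
    have hXY : X.card + Y.card = n := by
      rw [hX, hY, card_filter_add_card_filter_not, card_univ]
    have hYc : Y.card ≤ (pairs O).card + (L.map fun p => (pairs p.1).card).sum := by
      refine card_le_list (fun p : Finset (J ⊕ J) × ℕ => pairs p.1) L Y (pairs O) ?_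
      intro i hi
      have h1 : idx (Sum.inl i) = idx (Sum.inr i) := not_not.1 (mem_filter.1 hi).2
      rcases hidx3 (Sum.inl i) with ⟨g1, g2⟩ | ⟨j, g1, g2⟩
      · rcases hidx3 (Sum.inr i) with ⟨g3, g4⟩ | ⟨j', g3, g4⟩
        · left
          simp only [pairs, mem_filter, mem_univ, true_and]
          exact ⟨g1, g3⟩
        · rw [g2, g4] at h1
          exact absurd h1.symm (Fin.castSucc_lt_last j').ne
      · rcases hidx3 (Sum.inr i) with ⟨g3, g4⟩ | ⟨j', g3, g4⟩
        · rw [g2, g4] at h1
          exact absurd h1 (Fin.castSucc_lt_last j).ne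
        · rw [g2, g4] at h1
          have hjj : j = j' := Fin.castSucc_injective _ h1
          subst hjj
          right
          refine ⟨L.get j, List.get_mem L j, ?_⟩
          simp only [pairs, mem_filter, mem_univ, true_and]
          exact ⟨g1, g3⟩
    have hpc : ∀ B : Finset (J ⊕ J), (pairs B).card ≤ B.card := by
      intro B
      refine card_le_card_of_injOn Sum.inl ?_ Sum.inl_injective.injOn
      intro i hi
      have := (mem_filter.1 (mem_coe.1 hi)).2
      exact mem_coe.2 this.1
    have hO := (hpc O).trans h.ocard.le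
    have hsum := list_sum_bound (fun p : Finset (J ⊕ J) × ℕ => (pairs p.1).card)
      (fun p => p.2) (2 * m) m0 31 L (fun p hp => (hpc p.1).trans (h.small p hp).le)
    have hmk := list_markov (fun p : Finset (J ⊕ J) × ℕ => p.2) 31 L
    have hdeg := h.deg
    have hdeg' : (L.map fun p : Finset (J ⊕ J) × ℕ => p.2).sum ≤ k := by
      have e : (L.map fun p : Finset (J ⊕ J) × ℕ => p.2) = L.map Prod.snd := rfl
      rw [e]
      omega
    set Lg := L.filter fun p => p.2 ≤ 31 ∧ m0 ≤ (pairs p.1).card with hLg
    set cnt := (L.filter fun p : Finset (J ⊕ J) × ℕ => 31 < p.2).length with hcnt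
    refine ⟨Lg.length, ?_, ?_⟩
    · have e1 : m * cnt * 32 ≤ m * k := by
        have := Nat.mul_le_mul_left m (hmk.trans hdeg')
        calc m * cnt * 32 = m * (cnt * (31 + 1)) := by ring
          _ ≤ m * k := this
      have e2 : m * k = k * m := mul_comm _ _
      have e3 : 16 * (m0 * k) ≤ k * m := by
        calc 16 * (m0 * k) = k * (16 * m0) := by ring
          _ ≤ k * m := Nat.mul_le_mul_left _ (by omega)
      have e4 : 2 * m * Lg.length = 2 * (m * Lg.length) := by ring
      have e5 : 2 * m * cnt = 2 * (m * cnt) := by ring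
      rw [e4, e5, ← hk] at hsum
      have e6 : 8 * m * (Lg.length + 1) = 8 * (m * Lg.length) + 8 * m := by ring
      rw [e6]
      omega
    · have hb := hm0 K J (fun c => φ (D.eval c)) (Lg.map Prod.fst) ?_ ?_ ?_ hcf
      · rwa [List.length_map] at hb
      · intro B hB
        obtain ⟨p, hp, rfl⟩ := List.mem_map.1 hB
        rw [hLg, List.mem_filter] at hp
        have := hp.2
        simp only [decide_eq_true_eq] at this
        exact this.2
      · rw [List.pairwise_map]
        exact h.pw.filter _
      · intro B hB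
        obtain ⟨p, hp, rfl⟩ := List.mem_map.1 hB
        rw [hLg, List.mem_filter] at hp
        have h1 := hp.2
        simp only [decide_eq_true_eq] at h1
        refine ((h.rk1 p hp.1).mono ?_ (Subset.refl _) (Subset.refl _)).rk p.1 (Subset.refl _)
          (fun i hi => (mem_sdiff.1 hi).2) φ
        exact (hWw _).trans (Nat.pow_le_pow_right hw (by omega))

end Pool.Agent.R756.CT
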